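import Pool.Agent.Lib.CIR.Out

/-!
# MP_9aeaaa_lc, Q1 for the circle: yes

Topological conjugacy of the smooth diffeomorphisms of the circle is exactly the orbit equivalence
relation of a Borel action of a Polish group on the space of smooth diffeomorphisms.
-/

set_option autoImplicit false

namespace Pool.Agent.Lib.Reserve.MP_9aeaaa_lc.CircleConjugacyOrbits

open scoped ContDiff Manifold

/-- The `C^∞` diffeomorphisms of the unit circle in the complex plane. -/
abbrev Diff := Circle ≃ₘ⟮𝓘(ℝ, EuclideanSpace ℝ (Fin 1)), 𝓘(ℝ, EuclideanSpace ℝ (Fin 1))⟯ Circle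

/-- Topological conjugacy: the conjugating map is only a homeomorphism. -/
def TopConj (f g : Diff) : Prop := ∃ h : Circle ≃ₜ Circle, ∀ z, h (f z) = g (h z)

/-- For every Polish topology `τ` on the space of diffeomorphisms for which all evaluation maps are
continuous (the `C^∞` topology is one), there are a Polish group `G` and an action of `G` on the
space of diffeomorphisms which is Borel measurable as a map `G × Diff → Diff` and whose orbits are
exactly the classes of topological conjugacy. -/
theorem result (τ : TopologicalSpace Diff) (hτ : @PolishSpace Diff τ)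
    (hev : ∀ z : Circle, @Continuous Diff Circle τ _ fun f => f z) :
    ∃ (G : Type) (_ : Group G) (_ : TopologicalSpace G) (_ : IsTopologicalGroup G)
      (_ : PolishSpace G) (_ : MulAction G Diff),
      (@Measurable (G × Diff) Diff
        (@Prod.instMeasurableSpace G Diff (borel G) (@borel Diff τ)) (@borel Diff τ)
        fun p => p.1 • p.2) ∧
      ∀ f g : Diff, TopConj f g ↔ ∃ a : G, a • f = g :=
  Pool.Agent.CIR.out τ hτ hev

end Pool.Agent.Lib.Reserve.MP_9aeaaa_lc.CircleConjugacyOrbits
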