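import Pool.Agent.Lib.P9aeaaa.Final

/-!
# MP_9aeaaa_lc, Q2: negative for all closed manifolds of dimension at least two

Topological conjugacy of smooth diffeomorphisms of a closed manifold of dimension at least two is
not Borel reducible to the orbit equivalence relation of any Borel action of the group of all
permutations of the natural numbers.
-/

namespace Pool.Agent.Results.MP_9aeaaa_lc.NotCountableStructures

open scoped ContDiff Manifold

/-- The smooth diffeomorphisms of a manifold modelled on `ℝ ^ d`. -/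
abbrev Diff (d : ℕ) (M : Type*) [TopologicalSpace M]
    [ChartedSpace (EuclideanSpace ℝ (Fin d)) M] :=
  M ≃ₘ⟮𝓘(ℝ, EuclideanSpace ℝ (Fin d)), 𝓘(ℝ, EuclideanSpace ℝ (Fin d))⟯ M

/-- Topological conjugacy: the conjugating map is only a homeomorphism. -/
def TopConj {d : ℕ} {M : Type*} [TopologicalSpace M]
    [ChartedSpace (EuclideanSpace ℝ (Fin d)) M] (f g : Diff d M) : Prop :=
  ∃ h : M ≃ₜ M, ∀ m, h (f m) = g (h m)

/-- `𝒜` is the σ-algebra generated by the evaluation maps, or the Borel σ-algebra of some Polish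
topology on the diffeomorphisms for which all evaluation maps are continuous. The smooth topology
is such a Polish topology. -/
def IsBorelStructure {d : ℕ} {M : Type*} [TopologicalSpace M]
    [ChartedSpace (EuclideanSpace ℝ (Fin d)) M] (𝒜 : MeasurableSpace (Diff d M)) : Prop :=
  𝒜 = (⨆ m : M, MeasurableSpace.comap (fun f : Diff d M => f m) (borel M)) ∨
    ∃ τ : TopologicalSpace (Diff d M), @PolishSpace _ τ ∧
      (∀ m : M, @Continuous _ _ τ _ fun f : Diff d M => f m) ∧ 𝒜 = @borel _ τ

/-- The Borel σ-algebra of the topology of pointwise convergence on the group of all permutations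
of `ℕ`. -/
@[instance_reducible]
def permBorel : MeasurableSpace (Equiv.Perm ℕ) :=
  @borel _ (TopologicalSpace.induced (fun g : Equiv.Perm ℕ => (g : ℕ → ℕ)) inferInstance)

/-- The action of the group of all permutations of `ℕ` on `Y` is a Borel map. -/
def IsBorelAction (Y : Type*) [MeasurableSpace Y] [MulAction (Equiv.Perm ℕ) Y] : Prop :=
  @Measurable _ _ (@Prod.instMeasurableSpace _ _ permBorel _) _
    fun p : Equiv.Perm ℕ × Y => p.1 • p.2

theorem permBorel_eq : permBorel = Pool.Agent.Lib.P9aeaaa.permMeas := by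
  have h1 : permBorel = MeasurableSpace.comap (fun g : Equiv.Perm ℕ => (g : ℕ → ℕ)) (borel _) :=
    borel_comap
  rw [h1, ← BorelSpace.measurable_eq (α := ℕ → ℕ)]
  unfold Pool.Agent.Lib.P9aeaaa.permMeas
  show MeasurableSpace.comap _ (⨆ n, MeasurableSpace.comap (fun b : ℕ → ℕ => b n) _) = _
  rw [MeasurableSpace.comap_iSup]
  refine iSup_congr fun n => ?_
  rw [MeasurableSpace.comap_comp]
  rfl

/-- The frame of the first two coordinate vectors. -/
noncomputable def frame {d : ℕ} (hd : 2 ≤ d) :
    Pool.Agent.Lib.P9aeaaa.Frame (EuclideanSpace ℝ (Fin d)) where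
  e0 := EuclideanSpace.single ⟨0, by omega⟩ 1
  e1 := EuclideanSpace.single ⟨1, by omega⟩ 1
  n0 := by simp
  n1 := by simp
  orth := by
    rw [EuclideanSpace.inner_single_left]
    simp

/-- For a nonempty closed smooth manifold `M` of dimension at least two, topological conjugacy of
smooth diffeomorphisms of `M` is not Borel reducible to the orbit equivalence relation of any Borel
action of the group of all permutations of `ℕ` on a standard Borel space. -/
theorem result {d : ℕ} (hd : 2 ≤ d) {M : Type*} [TopologicalSpace M]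
    [ChartedSpace (EuclideanSpace ℝ (Fin d)) M]
    [IsManifold 𝓘(ℝ, EuclideanSpace ℝ (Fin d)) ∞ M] [CompactSpace M] [T2Space M] [Nonempty M]
    {𝒜 : MeasurableSpace (Diff d M)} (h𝒜 : IsBorelStructure 𝒜)
    {Y : Type*} [MeasurableSpace Y] [StandardBorelSpace Y] [MulAction (Equiv.Perm ℕ) Y]
    (hY : IsBorelAction Y) :
    ¬ ∃ θ : Diff d M → Y, @Measurable _ _ 𝒜 _ θ ∧
      ∀ f g : Diff d M, TopConj f g ↔ ∃ σ : Equiv.Perm ℕ, σ • θ f = θ g := by
  rintro ⟨θ, hθ, hred⟩
  have hA : 𝒜 = Pool.Agent.Lib.P9aeaaa.evalSigma (EuclideanSpace ℝ (Fin d)) M := by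
    rcases h𝒜 with rfl | ⟨τ, hτ, hev, rfl⟩
    · rfl
    · exact Pool.Agent.Lib.P9aeaaa.borel_eq_evalSigma τ hτ hev
  rw [hA] at hθ
  unfold IsBorelAction at hY
  rw [permBorel_eq] at hY
  exact Pool.Agent.Lib.P9aeaaa.main (frame hd) hY θ hθ hred

end Pool.Agent.Results.MP_9aeaaa_lc.NotCountableStructures
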